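import Pool.Agent.H107.MetricFam

/-! Sparse sets of integral tuples in residue classes modulo powers of several primes at once: for almost every tuple of
`p`-adic integers `α = (α_j)`, `α_j ∈ ℤ_{p_j}^k`, and all large `T` no member `t` of the set with `|t| ≤ T` satisfies
`|t - α_j| ≤ T ^ (-σ)` for all `j`. -/

set_option autoImplicit false

open MeasureTheory Filter Topology

namespace Pool.Agent.H36PA

theorem padic_ints {m k : ℕ} (p : Fin m → ℕ) [∀ j, Fact (p j).Prime] (Bad : ℕ → Set (Fin k → ℤ)) {s : ℝ} (hs : 0 ≤ s)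
    (h : ∀ n, ∀ ε : ℝ, 0 < ε → ∃ C : ℝ, ∀ X : ℝ, 1 ≤ X → {t : Fin k → ℤ | (∀ i, |(t i : ℝ)| ≤ X) ∧ t ∈ Bad n}.Finite ∧
      ({t : Fin k → ℤ | (∀ i, |(t i : ℝ)| ≤ X) ∧ t ∈ Bad n}.ncard : ℝ) ≤ C * X ^ (s + ε)) {σ : ℝ} (hσ : 0 < σ) :
    ∃ E : Set (∀ j : Fin m, Fin k → ℤ_[p j]), dimH E ≤ ENNReal.ofReal (s / σ) ∧ ∀ α ∉ E, ∀ n, ∃ T₀ : ℝ, ∀ T ≥ T₀,
      ∀ t : Fin k → ℤ, (∀ i, |(t i : ℝ)| ≤ T) → (∀ j i, ‖(t i : ℤ_[p j]) - α j i‖ ≤ T ^ (-σ)) → t ∉ Bad n := by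
  classical
  set φ : (Fin k → ℤ) → (∀ j : Fin m, Fin k → ℤ_[p j]) := fun t j i => (t i : ℤ_[p j]) with hφ
  set ht : (Fin k → ℤ) → ℝ := fun t => max 1 ‖fun i => (t i : ℝ)‖ with hht
  obtain ⟨E, hE1, hE2⟩ := Pool.Agent.H107.ME.dim_family φ ht (fun t => le_max_left _ _) hs hσ Bad (fun n ε hε => by
      obtain ⟨C, hC⟩ := h n ε hε
      refine ⟨C, fun X hX => ?_⟩
      obtain ⟨g1, g2⟩ := hC X hX
      have hsub : {t | t ∈ Bad n ∧ ht t ≤ X} ⊆ {t : Fin k → ℤ | (∀ i, |(t i : ℝ)| ≤ X) ∧ t ∈ Bad n} := by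
        rintro t ⟨a, b⟩
        refine ⟨fun i => ?_, a⟩
        have h1 := norm_le_pi_norm (fun i => (t i : ℝ)) i
        rw [Real.norm_eq_abs] at h1
        exact h1.trans ((le_max_right _ _).trans b)
      refine ⟨g1.subset hsub, le_trans ?_ g2⟩
      exact_mod_cast Set.ncard_le_ncard hsub g1)
  refine ⟨E ∪ Set.range φ, ?_, fun α hα n => ?_⟩
  · rw [dimH_union, (Set.countable_range φ).dimH_zero]
    exact max_le hE1 bot_le
  rw [Set.mem_union, not_or] at hα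
  have hfin := hE2 α hα.1 n
  have hne : ∀ t ∈ {t | t ∈ Bad n ∧ dist (φ t) α ≤ (ht t) ^ (-σ)}, ∀ᶠ T : ℝ in atTop, T ^ (-σ) < dist (φ t) α := by
    intro t _
    have h1 : 0 < dist (φ t) α := dist_pos.2 fun h2 => hα.2 ⟨t, h2⟩
    exact (tendsto_rpow_neg_atTop hσ).eventually (gt_mem_nhds h1)
  obtain ⟨T₀, hT₀⟩ := eventually_atTop.1 ((Filter.eventually_all_finite hfin).2 hne)
  refine ⟨max T₀ 1, fun T hT t htT htα hexc => ?_⟩
  have hT1 : 1 ≤ T := (le_max_right _ _).trans hT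
  have hT0 : 0 < T := by linarith
  have hdist : dist (φ t) α ≤ T ^ (-σ) := by
    rw [dist_pi_le_iff (Real.rpow_nonneg hT0.le _)]
    intro j
    rw [dist_pi_le_iff (Real.rpow_nonneg hT0.le _)]
    intro i
    rw [dist_eq_norm]
    exact htα j i
  have hle : ht t ≤ T := by
    refine max_le hT1 ?_
    rw [pi_norm_le_iff_of_nonneg hT0.le]
    intro i
    rw [Real.norm_eq_abs]
    exact htT i
  have hmem : t ∈ {t | t ∈ Bad n ∧ dist (φ t) α ≤ (ht t) ^ (-σ)} :=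
    ⟨hexc, hdist.trans (Real.rpow_le_rpow_of_nonpos (lt_of_lt_of_le one_pos (le_max_left _ _)) hle (by linarith))⟩
  have h3 := hT₀ T ((le_max_left _ _).trans hT) t hmem
  linarith

end Pool.Agent.H36PA
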