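import Pool.Agent.H107.MetricFam

/-! Sparse sets of tuples of natural numbers at the scales `v_n`, in residue classes modulo powers of several primes. -/

set_option autoImplicit false

open MeasureTheory Filter Topology

namespace Pool.Agent.H36PA

theorem padic_seq {m k : ℕ} (p : Fin m → ℕ) [∀ j, Fact (p j).Prime] {J : Type*} [Countable J]
    (S : J → ℕ → Set (Fin k → ℕ)) {v : ℕ → ℝ} (hv : ∀ n, 1 ≤ v n) {s τ : ℝ} (hs : 0 ≤ s) (hτ : 0 ≤ τ)
    (hvτ : ∀ q : ℝ, τ < q → Summable fun n => (v n) ^ (-q))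
    (h : ∀ l, ∀ ε : ℝ, 0 < ε → ∃ C : ℝ, ∀ n, (S l n).Finite ∧ ((S l n).ncard : ℝ) ≤ C * (v n) ^ (s + ε))
    {σ : ℝ} (hσ : 0 < σ) :
    ∃ E : Set (∀ j : Fin m, Fin k → ℤ_[p j]), dimH E ≤ ENNReal.ofReal ((s + τ) / σ) ∧ ∀ α ∉ E, ∀ l, ∃ n₀ : ℕ,
      ∀ n ≥ n₀, ∀ t ∈ S l n, ¬ ∀ j i, ‖(t i : ℤ_[p j]) - α j i‖ ≤ (v n) ^ (-σ) := by
  classical
  set φ : ℕ × (Fin k → ℕ) → (∀ j : Fin m, Fin k → ℤ_[p j]) := fun t j i => (t.2 i : ℤ_[p j]) with hφ
  obtain ⟨E, hE1, hE2⟩ := Pool.Agent.H107.ME.dim_family φ (fun t : ℕ × (Fin k → ℕ) => v t.1) (fun t => hv t.1)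
    (s := s + τ) (by linarith) hσ (fun l : J => {t : ℕ × (Fin k → ℕ) | t.2 ∈ S l t.1}) (fun l ε hε => by
      obtain ⟨C, hC⟩ := h l (ε / 2) (by linarith)
      have hC0 : 0 ≤ |C| := abs_nonneg C
      have hsum := hvτ (τ + ε / 2) (by linarith)
      refine ⟨|C| * ∑' n, (v n) ^ (-(τ + ε / 2)), fun X hX => ?_⟩
      have hX0 : 0 < X := by linarith
      -- finitely many scales
      have hF : {n : ℕ | v n ≤ X}.Finite := by
        have h1 := hsum.tendsto_atTop_zero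
        have h2 : ∀ᶠ n in atTop, (v n) ^ (-(τ + ε / 2)) < X ^ (-(τ + ε / 2)) :=
          h1.eventually (gt_mem_nhds (Real.rpow_pos_of_pos hX0 _))
        obtain ⟨n₁, hn₁⟩ := eventually_atTop.1 h2
        refine (Set.finite_lt_nat n₁).subset ?_
        intro n hn
        by_contra hc
        have h3 := hn₁ n (by simpa using hc)
        have h4 : X ^ (-(τ + ε / 2)) ≤ (v n) ^ (-(τ + ε / 2)) :=
          Real.rpow_le_rpow_of_nonpos (lt_of_lt_of_le one_pos (hv n)) hn (by linarith)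
        linarith
      obtain ⟨G, hG⟩ : ∃ G : Finset (ℕ × (Fin k → ℕ)), G = hF.toFinset.biUnion
        (fun n => ((hC n).1.toFinset).image (Prod.mk n)) := ⟨_, rfl⟩
      have hset : {t : ℕ × (Fin k → ℕ) | t ∈ {t : ℕ × (Fin k → ℕ) | t.2 ∈ S l t.1} ∧ v t.1 ≤ X} = (G : Set _) := by
        ext t
        rw [hG]
        simp only [Finset.coe_biUnion, Set.mem_iUnion, Finset.coe_image, Set.Finite.coe_toFinset, Set.mem_image]
        constructor
        · rintro ⟨h1, h2⟩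
          exact ⟨t.1, h2, t.2, h1, rfl⟩
        · rintro ⟨n, h1, x, h2, rfl⟩
          exact ⟨h2, h1⟩
      rw [hset]
      refine ⟨G.finite_toSet, ?_⟩
      rw [Set.ncard_coe_finset]
      have h1 : (G.card : ℝ) ≤ ∑ n ∈ hF.toFinset, (((S l n).ncard : ℕ) : ℝ) := by
        have h2 : G.card ≤ ∑ n ∈ hF.toFinset, (S l n).ncard := by
          rw [hG]
          refine le_trans Finset.card_biUnion_le (Finset.sum_le_sum fun n _ => ?_)
          refine le_trans Finset.card_image_le ?_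
          exact le_of_eq (Set.ncard_eq_toFinset_card _ (hC n).1).symm
        exact_mod_cast h2
      refine h1.trans ?_
      have h3 : ∀ n ∈ hF.toFinset, (((S l n).ncard : ℕ) : ℝ) ≤ |C| * X ^ (s + τ + ε) * (v n) ^ (-(τ + ε / 2)) := by
        intro n hn
        have hn1 : v n ≤ X := by simpa using hn
        have hv0 : 0 < v n := lt_of_lt_of_le one_pos (hv n)
        calc (((S l n).ncard : ℕ) : ℝ) ≤ C * (v n) ^ (s + ε / 2) := (hC n).2
          _ ≤ |C| * (v n) ^ (s + ε / 2) :=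
              mul_le_mul_of_nonneg_right (le_abs_self C) (Real.rpow_nonneg hv0.le _)
          _ = |C| * ((v n) ^ (s + τ + ε) * (v n) ^ (-(τ + ε / 2))) := by
              rw [← Real.rpow_add hv0]
              congr 2
              ring
          _ ≤ |C| * (X ^ (s + τ + ε) * (v n) ^ (-(τ + ε / 2))) := by
              refine mul_le_mul_of_nonneg_left ?_ hC0
              refine mul_le_mul_of_nonneg_right ?_ (Real.rpow_nonneg hv0.le _)
              exact Real.rpow_le_rpow hv0.le hn1 (by linarith)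
          _ = |C| * X ^ (s + τ + ε) * (v n) ^ (-(τ + ε / 2)) := by ring
      refine (Finset.sum_le_sum h3).trans ?_
      rw [← Finset.mul_sum]
      have h4 : ∑ n ∈ hF.toFinset, (v n) ^ (-(τ + ε / 2)) ≤ ∑' n, (v n) ^ (-(τ + ε / 2)) :=
        hsum.sum_le_tsum _ (fun n _ => Real.rpow_nonneg (by linarith [hv n]) _)
      calc |C| * X ^ (s + τ + ε) * ∑ n ∈ hF.toFinset, (v n) ^ (-(τ + ε / 2))
          ≤ |C| * X ^ (s + τ + ε) * ∑' n, (v n) ^ (-(τ + ε / 2)) :=
            mul_le_mul_of_nonneg_left h4 (by positivity)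
        _ = |C| * (∑' n, (v n) ^ (-(τ + ε / 2))) * X ^ (s + τ + ε) := by ring)
  refine ⟨E, hE1, fun α hα l => ?_⟩
  have hfin := hE2 α hα l
  have hfin2 : (Prod.fst '' {t : ℕ × (Fin k → ℕ) | t ∈ {t : ℕ × (Fin k → ℕ) | t.2 ∈ S l t.1} ∧
    dist (φ t) α ≤ (v t.1) ^ (-σ)}).Finite := hfin.image _
  obtain ⟨N, hN⟩ := hfin2.bddAbove
  refine ⟨N + 1, fun n hn t ht hcon => ?_⟩
  have hdist : dist (φ (n, t)) α ≤ (v n) ^ (-σ) := by
    have hv0 : 0 ≤ (v n) ^ (-σ) := Real.rpow_nonneg (by linarith [hv n]) _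
    rw [dist_pi_le_iff hv0]
    intro j
    rw [dist_pi_le_iff hv0]
    intro i
    rw [dist_eq_norm]
    exact hcon j i
  have h1 : n ≤ N := hN ⟨(n, t), ⟨ht, hdist⟩, rfl⟩
  omega

end Pool.Agent.H36PA
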