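import Pool.Agent.H36PA.SeqGen

/-! From a sieve bound for the integers in boxes to ALL integers in the residue classes of almost every point. -/

set_option autoImplicit false

open Filter Topology

namespace Pool.Agent.H36PA

lemma fin_int (X : ℝ) : {q : ℤ | |(q : ℝ)| ≤ X}.Finite := by
  refine (Set.finite_Icc (-⌈X⌉) ⌈X⌉).subset fun q hq => ?_
  have h1 := abs_le.1 (show |(q : ℝ)| ≤ X from hq)
  have h2 := Int.le_ceil X
  constructor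
  · have : (-(⌈X⌉ : ℝ)) ≤ (q : ℝ) := by linarith [h1.1]
    exact_mod_cast this
  · have : (q : ℝ) ≤ (⌈X⌉ : ℝ) := by linarith [h1.2]
    exact_mod_cast this

lemma summable_two (t : ℝ) (ht : 0 < t) : Summable (fun n : ℕ => ((2 : ℝ) ^ n) ^ (-t)) := by
  have h1 : (fun n : ℕ => ((2 : ℝ) ^ n) ^ (-t)) = fun n : ℕ => ((2 : ℝ) ^ (-t)) ^ n := by
    funext n
    rw [← Real.rpow_natCast, ← Real.rpow_mul (by norm_num), ← Real.rpow_natCast, ← Real.rpow_mul (by norm_num)]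
    congr 1
    ring
  rw [h1]
  exact summable_geometric_of_lt_one (by positivity) (Real.rpow_lt_one_of_one_lt_of_neg (by norm_num) (by linarith))

theorem classes_of_sieve {r : ℕ} (p : Fin r → ℕ) [∀ j, Fact (p j).Prime] (S : ℤ → ℝ → ℝ)
    (hmono : ∀ q Y Z, Y ≤ Z → S q Y ≤ S q Z) {m β : ℝ} (hm1 : 1 < m) (hβ1 : β ≤ 1)
    (hsieve : ∀ θ K : ℝ, 1 < θ * m → ∃ C : ℝ, ∀ X : ℝ, 2 ≤ X →
      (Set.ncard {q : ℤ | |(q : ℝ)| ≤ X ∧ S q (X ^ θ) ≤ (1 - β) * θ * Real.log X + K} : ℝ) ≤ C * X ^ θ)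
    {σ : ℝ} (hσ : 0 < σ) :
    ∃ E : Set (∀ j : Fin r, ℤ_[p j]), dimH E ≤ ENNReal.ofReal (1 / m / σ) ∧ ∀ α ∉ E, ∀ ρ K : ℝ, 1 / m < ρ →
      ∃ T₀ : ℝ, ∀ T ≥ T₀, ∀ q : ℤ, |(q : ℝ)| ≤ T → (∀ j, ‖(q : ℤ_[p j]) - α j‖ ≤ T ^ (-σ)) →
        (1 - β) * (1 / m) * Real.log T + K < S q (T ^ ρ) := by
  classical
  have hs0 : 0 < 1 / m := by positivity
  obtain ⟨E, hE1, hE2⟩ := seq_general (fun (q : ℤ) (j : Fin r) => (q : ℤ_[p j]))
    (fun (j : ℕ) (n : ℕ) => {q : ℤ | |(q : ℝ)| ≤ 2 ^ (n + 1) ∧ S q (((2 : ℝ) ^ n) ^ (1 / m + 1 / ((j : ℝ) + 1))) ≤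
      (1 - β) * (1 / m) * Real.log ((2 : ℝ) ^ (n + 1)) + j}) (v := fun n => (2 : ℝ) ^ n)
    (fun n => one_le_pow₀ (by norm_num)) (s := 1 / m) (τ := 0) hs0.le le_rfl (fun t ht => summable_two t ht)
    (fun j ε hε => by
      obtain ⟨ρ, hρ⟩ : ∃ ρ : ℝ, ρ = 1 / m + 1 / ((j : ℝ) + 1) := ⟨_, rfl⟩
      have hρ1 : 1 / m < ρ := by
        have : (0 : ℝ) < 1 / ((j : ℝ) + 1) := by positivity
        linarith
      obtain ⟨θ', hθ'⟩ : ∃ θ' : ℝ, θ' = 1 / m + min ε ((ρ - 1 / m) / 2) := ⟨_, rfl⟩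
      have hmin : 0 < min ε ((ρ - 1 / m) / 2) := lt_min hε (by linarith)
      have hθ'1 : 1 / m < θ' := by linarith
      have hθ'2 : θ' ≤ 1 / m + ε := by linarith [min_le_left ε ((ρ - 1 / m) / 2)]
      have hθ'3 : θ' < ρ := by linarith [min_le_right ε ((ρ - 1 / m) / 2)]
      have hcond : 1 < θ' * m := by
        have : 1 / m * m = 1 := by field_simp
        nlinarith
      obtain ⟨C, hC⟩ := hsieve θ' j hcond
      have htv : Tendsto (fun n : ℕ => (2 : ℝ) ^ n) atTop atTop := tendsto_pow_atTop_atTop_of_one_lt (by norm_num)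
      have hlarge : ∀ᶠ n : ℕ in atTop, ((2 : ℝ) ^ (n + 1)) ^ θ' ≤ ((2 : ℝ) ^ n) ^ ρ := by
        have h1 : Tendsto (fun n : ℕ => ((2 : ℝ) ^ n) ^ (ρ - θ')) atTop atTop :=
          (tendsto_rpow_atTop (by linarith)).comp htv
        filter_upwards [h1.eventually_ge_atTop ((2 : ℝ) ^ θ')] with n hn
        have hn0 : (0 : ℝ) < 2 ^ n := by positivity
        rw [pow_succ', Real.mul_rpow (by norm_num) hn0.le]
        calc (2 : ℝ) ^ θ' * ((2 : ℝ) ^ n) ^ θ' ≤ ((2 : ℝ) ^ n) ^ (ρ - θ') * ((2 : ℝ) ^ n) ^ θ' :=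
              mul_le_mul_of_nonneg_right hn (Real.rpow_nonneg hn0.le _)
          _ = ((2 : ℝ) ^ n) ^ ρ := by
              rw [← Real.rpow_add hn0]
              congr 1
              ring
      obtain ⟨n₁, hn₁⟩ := hlarge.exists_forall_of_atTop
      obtain ⟨D, hD⟩ : ∃ D : ℝ, D = ({q : ℤ | |(q : ℝ)| ≤ 2 ^ (n₁ + 1)}.ncard : ℝ) := ⟨_, rfl⟩
      have hD0 : 0 ≤ D := by rw [hD]; exact Nat.cast_nonneg _
      refine ⟨|C| * (2 : ℝ) ^ θ' + D, fun n => ?_⟩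
      have hn0 : (0 : ℝ) < 2 ^ n := by positivity
      have hn1 : (1 : ℝ) ≤ 2 ^ n := one_le_pow₀ (by norm_num)
      have hsubf : {q : ℤ | |(q : ℝ)| ≤ 2 ^ (n + 1) ∧ S q (((2 : ℝ) ^ n) ^ (1 / m + 1 / ((j : ℝ) + 1))) ≤
          (1 - β) * (1 / m) * Real.log ((2 : ℝ) ^ (n + 1)) + j} ⊆ {q : ℤ | |(q : ℝ)| ≤ 2 ^ (n + 1)} := fun q hq => hq.1
      refine ⟨(fin_int _).subset hsubf, ?_⟩
      have hpow1 : 1 ≤ ((2 : ℝ) ^ n) ^ (1 / m + ε) := Real.one_le_rpow hn1 (by linarith)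
      by_cases hnn : n₁ ≤ n
      · have hX2 : (2 : ℝ) ≤ 2 ^ (n + 1) := by rw [pow_succ']; linarith
        have h1 := hC _ hX2
        have hsub : {q : ℤ | |(q : ℝ)| ≤ 2 ^ (n + 1) ∧ S q (((2 : ℝ) ^ n) ^ (1 / m + 1 / ((j : ℝ) + 1))) ≤
            (1 - β) * (1 / m) * Real.log ((2 : ℝ) ^ (n + 1)) + j} ⊆
            {q : ℤ | |(q : ℝ)| ≤ 2 ^ (n + 1) ∧ S q (((2 : ℝ) ^ (n + 1)) ^ θ') ≤
              (1 - β) * θ' * Real.log ((2 : ℝ) ^ (n + 1)) + j} := by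
          rintro q ⟨h2, h3⟩
          refine ⟨h2, ?_⟩
          rw [← hρ] at h3
          have h4 := hmono q _ _ (hn₁ n hnn)
          have h5 : 0 ≤ Real.log ((2 : ℝ) ^ (n + 1)) := Real.log_nonneg (by linarith)
          have h6 : (1 - β) * (1 / m) * Real.log ((2 : ℝ) ^ (n + 1)) ≤
              (1 - β) * θ' * Real.log ((2 : ℝ) ^ (n + 1)) :=
            mul_le_mul_of_nonneg_right (mul_le_mul_of_nonneg_left hθ'1.le (by linarith)) h5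
          linarith
        have hfin2 : {q : ℤ | |(q : ℝ)| ≤ 2 ^ (n + 1) ∧ S q (((2 : ℝ) ^ (n + 1)) ^ θ') ≤
              (1 - β) * θ' * Real.log ((2 : ℝ) ^ (n + 1)) + j}.Finite := (fin_int _).subset fun q hq => hq.1
        have h7 : (({q : ℤ | |(q : ℝ)| ≤ 2 ^ (n + 1) ∧ S q (((2 : ℝ) ^ n) ^ (1 / m + 1 / ((j : ℝ) + 1))) ≤
            (1 - β) * (1 / m) * Real.log ((2 : ℝ) ^ (n + 1)) + j}.ncard : ℕ) : ℝ) ≤ C * ((2 : ℝ) ^ (n + 1)) ^ θ' := by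
          refine le_trans ?_ h1
          exact_mod_cast Set.ncard_le_ncard hsub hfin2
        have h8 : C * ((2 : ℝ) ^ (n + 1)) ^ θ' ≤ (|C| * (2 : ℝ) ^ θ') * ((2 : ℝ) ^ n) ^ (1 / m + ε) := by
          rw [pow_succ', Real.mul_rpow (by norm_num) hn0.le, ← mul_assoc]
          refine mul_le_mul (mul_le_mul_of_nonneg_right (le_abs_self C) (by positivity))
            (Real.rpow_le_rpow_of_exponent_le hn1 hθ'2) (by positivity) (by positivity)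
        have h9 : 0 ≤ D * ((2 : ℝ) ^ n) ^ (1 / m + ε) := by positivity
        rw [add_mul]
        linarith
      · push Not at hnn
        have hsub2 : {q : ℤ | |(q : ℝ)| ≤ 2 ^ (n + 1) ∧ S q (((2 : ℝ) ^ n) ^ (1 / m + 1 / ((j : ℝ) + 1))) ≤
            (1 - β) * (1 / m) * Real.log ((2 : ℝ) ^ (n + 1)) + j} ⊆ {q : ℤ | |(q : ℝ)| ≤ 2 ^ (n₁ + 1)} := by
          rintro q ⟨h2, -⟩
          refine h2.trans ?_
          exact pow_le_pow_right₀ (by norm_num) (by omega)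
        have h7 : (({q : ℤ | |(q : ℝ)| ≤ 2 ^ (n + 1) ∧ S q (((2 : ℝ) ^ n) ^ (1 / m + 1 / ((j : ℝ) + 1))) ≤
            (1 - β) * (1 / m) * Real.log ((2 : ℝ) ^ (n + 1)) + j}.ncard : ℕ) : ℝ) ≤ D := by
          rw [hD]
          exact_mod_cast Set.ncard_le_ncard hsub2 (fin_int _)
        have h8 : D ≤ D * ((2 : ℝ) ^ n) ^ (1 / m + ε) := by nlinarith
        have h9 : 0 ≤ (|C| * (2 : ℝ) ^ θ') * ((2 : ℝ) ^ n) ^ (1 / m + ε) := by positivity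
        rw [add_mul]
        linarith) hσ
  refine ⟨E, by simpa using hE1, fun α hα ρ K hρ => ?_⟩
  obtain ⟨j₁, hj₁⟩ := exists_nat_gt (max K (1 / (ρ - 1 / m)))
  obtain ⟨n₀, hn₀⟩ := hE2 α hα j₁
  have hρ0 : 0 < ρ - 1 / m := by linarith
  have hj0 : (0 : ℝ) < (j₁ : ℝ) + 1 := by positivity
  have hjρ : 1 / m + 1 / ((j₁ : ℝ) + 1) ≤ ρ := by
    have h1 : 1 / (ρ - 1 / m) < j₁ := (le_max_right _ _).trans_lt hj₁
    have h2 : 1 / ((j₁ : ℝ) + 1) ≤ ρ - 1 / m := by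
      rw [div_lt_iff₀ hρ0] at h1
      rw [div_le_iff₀ hj0]
      nlinarith
    linarith
  refine ⟨(2 : ℝ) ^ n₀, fun T hT q hq hqα => ?_⟩
  have hT1 : 1 ≤ T := (one_le_pow₀ (by norm_num)).trans hT
  have hT0 : 0 < T := by linarith
  obtain ⟨n, hn1, hn2⟩ := exists_nat_pow_near hT1 (one_lt_two : (1 : ℝ) < 2)
  have hnn : n₀ ≤ n := by
    by_contra hcon
    push Not at hcon
    have h1 : (2 : ℝ) ^ (n + 1) ≤ 2 ^ n₀ := pow_le_pow_right₀ (by norm_num) (by omega)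
    linarith
  have hn0 : (0 : ℝ) < 2 ^ n := by positivity
  have hn11 : (1 : ℝ) ≤ 2 ^ n := one_le_pow₀ (by norm_num)
  by_contra hcon
  push Not at hcon
  refine hn₀ n hnn q ⟨hq.trans hn2.le, ?_⟩ ?_
  · have h1 : ((2 : ℝ) ^ n) ^ (1 / m + 1 / ((j₁ : ℝ) + 1)) ≤ T ^ ρ :=
      (Real.rpow_le_rpow hn0.le hn1 (by positivity)).trans (Real.rpow_le_rpow_of_exponent_le hT1 hjρ)
    have h2 := hmono q _ _ h1
    have h3 : Real.log T ≤ Real.log ((2 : ℝ) ^ (n + 1)) := Real.log_le_log hT0 hn2.le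
    have h4 : (1 - β) * (1 / m) * Real.log T ≤ (1 - β) * (1 / m) * Real.log ((2 : ℝ) ^ (n + 1)) :=
      mul_le_mul_of_nonneg_left h3 (mul_nonneg (by linarith) hs0.le)
    have h5 : K < j₁ := (le_max_left _ _).trans_lt hj₁
    linarith
  · have hv0 : 0 ≤ ((2 : ℝ) ^ n) ^ (-σ) := Real.rpow_nonneg hn0.le _
    rw [dist_pi_le_iff hv0]
    intro j
    rw [dist_eq_norm]
    exact (hqα j).trans (Real.rpow_le_rpow_of_nonpos hn0 hn1 (by linarith))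

end Pool.Agent.H36PA
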